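import Pool.Agent.Y742.CN.Stm
import Pool.Agent.W602.GT.Der

/-!
# Project CN: coordinate derivations and extension of derivations
-/

set_option autoImplicit false

namespace Pool.Agent.Y467.CN

open Pool.Agent.Y742.CN Polynomial

theorem sExtend : SExtend := by
  classical
  intro F M _ _ _ _ n z hz v
  have hrange : AlgebraicIndepOn F id (Set.range z) := AlgebraicIndependent.to_subtype_range hz
  obtain ⟨B, hB, hBb⟩ := exists_isTranscendenceBasis_superset hrange
  obtain ⟨d, hd⟩ := Pool.Agent.W602.GT.exists_der (fun b : B => (b : M)) hBb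
    (fun b => if h : ∃ l, z l = b then v h.choose else 0)
  refine ⟨d, fun l => ?_⟩
  have h1 := hd ⟨z l, hB ⟨l, rfl⟩⟩
  have hex : ∃ l', z l' = z l := ⟨l, rfl⟩
  rw [dif_pos hex] at h1
  rw [h1, hz.injective hex.choose_spec]

section

variable {Ω K M : Type} [Field Ω] [Field K] [Field M] [Algebra Ω K] {e : K →+* M} {η : K → M}

theorem along_zero' (h : DerAlong Ω e η) : η 0 = 0 := by
  have := h.add 0 0
  rw [add_zero] at this
  simpa using this

theorem along_one (h : DerAlong Ω e η) : η 1 = 0 := by
  have := h.const 1
  rwa [map_one] at this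

theorem along_neg (h : DerAlong Ω e η) (a : K) : η (-a) = -η a := by
  have := h.add a (-a)
  rw [add_neg_cancel, along_zero' h] at this
  exact (neg_eq_of_add_eq_zero_right this.symm).symm

theorem along_inv (h : DerAlong Ω e η) {a : K} (ha : η a = 0) : η a⁻¹ = 0 := by
  by_cases h0 : a = 0
  · rw [h0, inv_zero]; exact along_zero' h
  · have h1 := h.mul a a⁻¹
    rw [mul_inv_cancel₀ h0, along_one h, ha, mul_zero, add_zero] at h1
    have h2 : e a ≠ 0 := by rw [Ne, map_eq_zero]; exact h0
    exact (mul_eq_zero.mp h1.symm).resolve_left h2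

theorem along_pow (h : DerAlong Ω e η) (a : K) (n : ℕ) :
    η (a ^ n) = (n : M) * e a ^ (n - 1) * η a := by
  induction n with
  | zero => simp [along_one h]
  | succ n ih =>
    rw [pow_succ, h.mul, ih]
    rcases n with _ | n
    · simp
    · simp only [map_pow, Nat.cast_add, Nat.cast_one, add_tsub_cancel_right]
      ring

/-- the zero set -/
def zs (h : DerAlong Ω e η) : IntermediateField Ω K where
  carrier := {a | η a = 0}
  mul_mem' := by
    intro a b ha hb
    simp only [Set.mem_ofPred_eq] at ha hb ⊢
    rw [h.mul, ha, hb, mul_zero, mul_zero, add_zero]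
  add_mem' := by
    intro a b ha hb
    simp only [Set.mem_ofPred_eq] at ha hb ⊢
    rw [h.add, ha, hb, add_zero]
  algebraMap_mem' := fun r => h.const r
  inv_mem' := fun a ha => along_inv h ha

theorem along_aeval (h : DerAlong Ω e η) (a : K) (P : (zs h)[X]) :
    η (aeval a P) = e (aeval a (derivative P)) * η a := by
  induction P using Polynomial.induction_on' with
  | add p q hp hq =>
    rw [map_add, h.add, hp, hq, derivative_add, map_add, map_add, add_mul]
  | monomial n c =>
    have hc : η (c : K) = 0 := c.2
    rw [derivative_monomial, aeval_monomial, aeval_monomial]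
    change η ((c : K) * a ^ n) = e ((((c * n : (zs h)) : K)) * a ^ (n - 1)) * η a
    rw [h.mul, hc, mul_zero, add_zero, along_pow h]
    push_cast
    rw [map_mul, map_mul, map_natCast, map_pow]
    ring

variable [CharZero Ω]

theorem along_alg (h : DerAlong Ω e η) {a : K} (ha : IsAlgebraic (zs h) a) : η a = 0 := by
  have hchar : CharZero (zs h) := charZero_of_injective_algebraMap (algebraMap Ω (zs h)).injective
  have hint : IsIntegral (zs h) a := ha.isIntegral
  have hsep : (minpoly (zs h) a).Separable := (minpoly.irreducible hint).separable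
  have h1 := along_aeval h a (minpoly (zs h) a)
  rw [minpoly.aeval, along_zero' h] at h1
  have h2 := hsep.aeval_derivative_ne_zero (minpoly.aeval (zs h) a)
  have h3 : e (aeval a (derivative (minpoly (zs h) a))) ≠ 0 := by
    rw [Ne, map_eq_zero]; exact h2
  exact (mul_eq_zero.mp h1.symm).resolve_left h3

theorem along_basis {ι : Type} {x : ι → K} (hx : IsTranscendenceBasis Ω x)
    (h : DerAlong Ω e η) (h0 : ∀ i, η (x i) = 0) (a : K) : η a = 0 := by
  apply along_alg h
  have h1 : IsAlgebraic (Algebra.adjoin Ω (Set.range x)) a := hx.isAlgebraic.isAlgebraic a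
  have hle : Algebra.adjoin Ω (Set.range x) ≤ (zs h).toSubalgebra := by
    rw [Algebra.adjoin_le_iff]
    rintro _ ⟨i, rfl⟩
    exact h0 i
  obtain ⟨P, hP, hP0⟩ := h1
  refine ⟨P.map (Subalgebra.inclusion hle).toRingHom, ?_, ?_⟩
  · rw [Ne, Polynomial.map_eq_zero_iff (Subalgebra.inclusion_injective hle)]
    exact hP
  · rw [Polynomial.aeval_def, Polynomial.eval₂_map]
    exact hP0

end

theorem sCoord : SCoord := by
  intro Ω K ι _ _ _ _ _ _ x hx
  have h1 : ∀ i : ι, ∃ D : Derivation Ω K K, ∀ j, D (x j) = if i = j then 1 else 0 := fun i =>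
    Pool.Agent.W602.GT.exists_der x hx (fun j => if i = j then 1 else 0)
  choose d hd using h1
  refine ⟨d, hd, ?_⟩
  intro M _ e δ hδ a
  have hη : DerAlong Ω e (fun a => δ a - ∑ j, e (d j a) * δ (x j)) := by
    refine ⟨?_, ?_, ?_⟩
    · intro a b
      simp only [hδ.add, map_add, add_mul, Finset.sum_add_distrib]
      ring
    · intro a b
      simp only [hδ.mul, Derivation.leibniz, smul_eq_mul, map_add, map_mul, add_mul,
        Finset.sum_add_distrib]
      rw [mul_sub, mul_sub, Finset.mul_sum, Finset.mul_sum]
      simp only [mul_assoc]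
      ring
    · intro c
      simp only [hδ.const, Derivation.map_algebraMap, map_zero, zero_mul, Finset.sum_const_zero,
        sub_zero]
  have h0 : ∀ i, (fun a => δ a - ∑ j, e (d j a) * δ (x j)) (x i) = 0 := by
    intro i
    simp only [hd]
    rw [Finset.sum_eq_single i]
    · simp
    · intro j _ hj
      rw [if_neg hj, map_zero, zero_mul]
    · intro h; exact absurd (Finset.mem_univ i) h
  have := along_basis hx hη h0 a
  exact sub_eq_zero.mp this

end Pool.Agent.Y467.CN
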