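import Pool.Agent.Y742.CN.Stm

/-!
# Project CN: descent
-/

set_option autoImplicit false

namespace Pool.Agent.Y467.CN

open Pool.Agent.Y742.CN

theorem sDescent : SDescent := by
  classical
  intro Ω K ι I _ _ _ D U hU
  have key : ∀ n : ℕ, ∀ u ∈ U, u.support.card = n →
      u ∈ Submodule.span K {v : ι →₀ K | v ∈ U ∧ ∀ i j, D i (v j) = 0} := by
    intro n
    induction n using Nat.strong_induction_on with
    | _ n ih =>
      intro u hu hn
      by_cases hu0 : u = 0
      · rw [hu0]; exact Submodule.zero_mem _
      -- a nonzero vector of minimal support
      have hex : ∃ m, ∃ v ∈ U, v ≠ 0 ∧ v.support ⊆ u.support ∧ v.support.card = m :=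
        ⟨_, u, hu, hu0, subset_rfl, rfl⟩
      obtain ⟨v, hv, hv0, hvs, hvc⟩ := Nat.find_spec hex
      have hmin : ∀ w ∈ U, w ≠ 0 → w.support ⊆ u.support → v.support.card ≤ w.support.card := by
        intro w hw hw0 hws
        rw [hvc]
        exact Nat.find_min' hex ⟨w, hw, hw0, hws, rfl⟩
      obtain ⟨j, hj⟩ := Finsupp.support_nonempty_iff.mpr hv0
      have hvj : v j ≠ 0 := Finsupp.mem_support_iff.mp hj
      set v' : ι →₀ K := (v j)⁻¹ • v with hv'
      have hv'U : v' ∈ U := U.smul_mem _ hv
      have hv'j : v' j = 1 := by
        rw [hv', Finsupp.smul_apply, smul_eq_mul, inv_mul_cancel₀ hvj]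
      have hv's : v'.support = v.support := by
        ext k
        rw [Finsupp.mem_support_iff, Finsupp.mem_support_iff, hv', Finsupp.smul_apply, smul_eq_mul]
        constructor
        · intro h h1; exact h (by rw [h1, mul_zero])
        · intro h h1
          exact h ((mul_eq_zero.mp h1).resolve_left (inv_ne_zero hvj))
      have hconst : ∀ i k, D i (v' k) = 0 := by
        intro i k
        set w := v'.mapRange (D i) (map_zero (D i)) with hw
        have hwU : w ∈ U := hU i v' hv'U
        have hwk : ∀ k, w k = D i (v' k) := fun k => Finsupp.mapRange_apply
        have hws : w.support ⊆ v.support.erase j := by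
          intro k hk
          rw [Finsupp.mem_support_iff, hwk] at hk
          rw [Finset.mem_erase, ← hv's, Finsupp.mem_support_iff]
          constructor
          · rintro rfl
            apply hk
            rw [hv'j]
            exact Derivation.map_one_eq_zero (D i)
          · intro h
            apply hk
            rw [h, map_zero]
        by_contra hne
        have hw0 : w ≠ 0 := by
          intro h
          apply hne
          rw [← hwk, h]
          rfl
        have h1 := hmin w hwU hw0 (hws.trans ((Finset.erase_subset _ _).trans hvs))
        have h2 := Finset.card_le_card hws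
        rw [Finset.card_erase_of_mem hj] at h2
        have h3 : 0 < v.support.card := Finset.card_pos.mpr ⟨j, hj⟩
        omega
      have hv'span : v' ∈ Submodule.span K {v : ι →₀ K | v ∈ U ∧ ∀ i j, D i (v j) = 0} :=
        Submodule.subset_span ⟨hv'U, hconst⟩
      -- the difference has smaller support
      have hdU : u - (u j) • v' ∈ U := U.sub_mem hu (U.smul_mem _ hv'U)
      have hds : (u - (u j) • v').support ⊆ u.support.erase j := by
        intro k hk
        rw [Finsupp.mem_support_iff, Finsupp.sub_apply, Finsupp.smul_apply, smul_eq_mul] at hk
        rw [Finset.mem_erase]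
        constructor
        · rintro rfl
          apply hk
          rw [hv'j, mul_one, sub_self]
        · by_contra hku
          apply hk
          have h1 : k ∉ v'.support := by
            rw [hv's]; exact fun h => hku (hvs h)
          rw [Finsupp.notMem_support_iff] at h1 hku
          rw [h1, hku, mul_zero, sub_zero]
      have hju : j ∈ u.support := hvs hj
      have h2 := Finset.card_le_card hds
      rw [Finset.card_erase_of_mem hju] at h2
      have h3 : 0 < u.support.card := Finset.card_pos.mpr ⟨j, hju⟩
      have h4 := ih _ (by omega) (u - (u j) • v') hdU rfl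
      have h5 : u = (u - (u j) • v') + (u j) • v' := by rw [sub_add_cancel]
      rw [h5]
      exact Submodule.add_mem _ h4 (Submodule.smul_mem _ _ hv'span)
  intro u hu
  exact key _ u hu rfl

end Pool.Agent.Y467.CN
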