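import Pool.Agent.Y742.CN.Stm

/-!
# Project CN: a stable end is generic if there are no invariants
-/

set_option autoImplicit false

namespace Pool.Agent.Y467.CN

open Pool.Agent.Y742.CN Module

/-- the stability for sums over finite sets -/
theorem stable_finset {Ω K M : Type} [Field Ω] [Field K] [Algebra Ω K] [Field M] [Algebra Ω M]
    {s e : K →ₐ[Ω] M} {D : Derivation Ω K K} (h : Stable s e D) {ι : Type} (S : Finset ι)
    (a b : ι → K) (h0 : ∑ k ∈ S, s (a k) * e (b k) = 0) :
    ∑ k ∈ S, s (a k) * e (D (b k)) = 0 := by
  have key : ∀ F : ι → M, ∑ k ∈ S, F k = ∑ l : Fin S.card, F (S.equivFin.symm l) := by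
    intro F
    rw [← Finset.sum_coe_sort]
    exact (Equiv.sum_comp S.equivFin.symm (fun k : S => F k)).symm
  rw [key] at h0 ⊢
  exact h S.card (fun l => a (S.equivFin.symm l)) (fun l => b (S.equivFin.symm l)) h0

theorem sIndep (hDesc : SDescent) : SIndep := by
  classical
  intro Ω K I M _ _ _ _ _ _ s e D hinv hst n x hx
  let β := Basis.ofVectorSpace Ω K
  set ι := Basis.ofVectorSpaceIndex Ω K with hι
  -- the relations
  let U : Submodule K (ι →₀ K) :=
    { carrier := {u | (u.sum fun k a => s (β k) * e a) = 0}
      add_mem' := by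
        intro u v hu hv
        simp only [Set.mem_ofPred_eq] at hu hv ⊢
        rw [Finsupp.sum_add_index' (by simp) (by intros; simp [mul_add]), hu, hv, add_zero]
      zero_mem' := by simp
      smul_mem' := by
        intro c u hu
        simp only [Set.mem_ofPred_eq] at hu ⊢
        rw [Finsupp.sum_smul_index' (by simp)]
        have h1 : (u.sum fun k a => s (β k) * e (c • a)) = e c * u.sum fun k a => s (β k) * e a := by
          rw [Finsupp.mul_sum]
          apply Finsupp.sum_congr
          intro k _
          rw [smul_eq_mul, map_mul]; ring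
        rw [h1, hu, mul_zero] }
  have hUmem : ∀ u : ι →₀ K, u ∈ U ↔ (u.sum fun k a => s (β k) * e a) = 0 := fun u => Iff.rfl
  have hUst : ∀ i, ∀ u ∈ U, u.mapRange (D i) (map_zero (D i)) ∈ U := by
    intro i u hu
    rw [hUmem] at hu ⊢
    rw [Finsupp.sum_mapRange_index (by simp)]
    exact stable_finset (hst i) u.support (fun k => β k) u hu
  have hU0 : ∀ u ∈ U, u = 0 := by
    intro u hu
    have h1 := hDesc Ω K ι I D U hUst u hu
    have h2 : {v : ι →₀ K | v ∈ U ∧ ∀ i j, D i (v j) = 0} ⊆ {0} := by
      rintro v ⟨hv, hvD⟩
      rw [Set.mem_singleton_iff]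
      have h3 : ∀ k, ∃ c : Ω, algebraMap Ω K c = v k := fun k => hinv (v k) (fun i => hvD i k)
      choose c hc using h3
      have h4 : ∑ k ∈ v.support, c k • β k = 0 := by
        apply s.toRingHom.injective
        rw [map_zero, map_sum]
        rw [hUmem] at hv
        rw [← hv]
        apply Finset.sum_congr rfl
        intro k _
        show s (c k • β k) = s (β k) * e (v k)
        rw [← hc k, AlgHom.commutes, Algebra.smul_def, map_mul, AlgHom.commutes, mul_comm]
      have h5 := linearIndependent_iff'.mp β.linearIndependent v.support c h4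
      ext k
      by_cases hk : k ∈ v.support
      · rw [← hc k, h5 k hk, map_zero]; rfl
      · rw [Finsupp.notMem_support_iff.mp hk]; rfl
    have h6 : u ∈ Submodule.span K ({0} : Set (ι →₀ K)) := Submodule.span_mono h2 h1
    rwa [Submodule.span_zero_singleton, Submodule.mem_bot] at h6
  -- linear disjointness
  have hdisj : ∀ {T : Type} (b : T → K), LinearIndependent Ω b → ∀ (S : Finset T) (a : T → K),
      ∑ l ∈ S, s (a l) * e (b l) = 0 → ∀ l ∈ S, a l = 0 := by
    intro T b hb S a h0
    set u : ι →₀ K := ∑ l ∈ S, (β.repr (a l)).mapRange (fun c : Ω => c • b l) (zero_smul _ _) with hu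
    have huk : ∀ k, u k = ∑ l ∈ S, (β.repr (a l) k) • b l := by
      intro k
      rw [hu, Finsupp.finsetSum_apply]
      rfl
    have huU : u ∈ U := by
      rw [hUmem, hu]
      have h1 : ((∑ l ∈ S, (β.repr (a l)).mapRange (fun c : Ω => c • b l) (zero_smul _ _)).sum
          fun k a => s (β k) * e a) = ∑ l ∈ S, s (a l) * e (b l) := by
        rw [← Finsupp.sum_finsetSum_index (by simp) (by intros; simp [mul_add])]
        apply Finset.sum_congr rfl
        intro l _
        rw [Finsupp.sum_mapRange_index (by simp)]
        have h2 : s (a l) = (β.repr (a l)).sum fun k c => algebraMap Ω M c * s (β k) := by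
          conv_lhs => rw [← β.linearCombination_repr (a l)]
          rw [Finsupp.linearCombination_apply, map_finsuppSum]
          apply Finsupp.sum_congr
          intro k _
          rw [Algebra.smul_def, map_mul, AlgHom.commutes]
        rw [h2, Finsupp.sum_mul]
        apply Finsupp.sum_congr
        intro k _
        rw [Algebra.smul_def, map_mul, AlgHom.commutes]; ring
      rw [h1, h0]
    have hu0 := hU0 u huU
    intro l hl
    have h3 : ∀ k, β.repr (a l) k = 0 := by
      intro k
      have h4 := huk k
      rw [hu0] at h4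
      exact linearIndependent_iff'.mp hb S (fun l => β.repr (a l) k) h4.symm l hl
    have h5 : β.repr (a l) = 0 := by
      ext k; exact h3 k
    exact (LinearEquiv.map_eq_zero_iff β.repr).mp h5
  -- monomials
  have hmon : LinearIndependent Ω (fun m : Fin n →₀ ℕ => MvPolynomial.aeval x
      (MvPolynomial.monomial m (1 : Ω))) := by
    have h1 : LinearIndependent Ω (fun m : Fin n →₀ ℕ => MvPolynomial.monomial m (1 : Ω)) := by
      have := (MvPolynomial.basisMonomials (Fin n) Ω).linearIndependent
      simpa using this
    exact h1.map' (MvPolynomial.aeval x : MvPolynomial (Fin n) Ω →ₐ[Ω] K).toLinearMap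
      (LinearMap.ker_eq_bot.mpr hx)
  rw [algebraicIndependent_iff]
  intro p hp
  have hsur : ∀ m : Fin n →₀ ℕ, ∃ a : K, s a = ((p.coeff m : s.fieldRange) : M) :=
    fun m => (p.coeff m : s.fieldRange).2
  choose a ha using hsur
  have h1 : ∑ m ∈ p.support, s (a m) * e (MvPolynomial.aeval x (MvPolynomial.monomial m (1 : Ω)))
      = 0 := by
    rw [← hp, MvPolynomial.aeval_def, MvPolynomial.eval₂_eq]
    apply Finset.sum_congr rfl
    intro m _
    rw [ha, MvPolynomial.aeval_monomial, map_one, one_mul, Finsupp.prod, map_prod]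
    congr 1
    apply Finset.prod_congr rfl
    intro i _
    rw [map_pow]
  have h2 := hdisj _ hmon p.support a h1
  ext m
  by_cases hm : m ∈ p.support
  · rw [← ha m, h2 m hm, map_zero]
    simp
  · rw [MvPolynomial.notMem_support_iff.mp hm]
    simp

end Pool.Agent.Y467.CN
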