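import Pool.Agent.Y742.CN.Stm

/-!
# Project CN: one more leaf exists
-/

set_option autoImplicit false

namespace Pool.Agent.Y467.CN

open Pool.Agent.Y742.CN

theorem sNext (hExp : SExp) : SNext := by
  intro Ω K M _ _ _ _ _ _ D s e
  have hcharM : CharZero M := charZero_of_injective_algebraMap (algebraMap Ω M).injective
  obtain ⟨E, hE⟩ := hExp K M e.toRingHom (D.restrictScalars ℤ)
  have hE' : ∀ (b : K) (n : ℕ), PowerSeries.coeff n (E b) = e (D^[n] b) / (n.factorial : M) := by
    intro b n
    exact hE b n
  -- constants of `D`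
  have hker : ∀ (b : K), D b = 0 → ∀ n : ℕ, D^[n + 1] b = 0 := by
    intro b hb n
    rw [Function.iterate_succ, Function.comp_apply, hb]
    exact Function.iterate_fixed (map_zero D) n
  have hEC : ∀ b : K, D b = 0 → E b = PowerSeries.C (e b) := by
    intro b hb
    ext n
    rw [hE', PowerSeries.coeff_C]
    rcases n with _ | n
    · simp
    · rw [hker b hb n, map_zero, zero_div, if_neg (Nat.succ_ne_zero n)]
  let P := PowerSeries M
  let M' := FractionRing P
  let i : P →ₐ[Ω] M' := IsScalarTower.toAlgHom Ω P M'
  have hi : Function.Injective i := IsFractionRing.injective P M'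
  let c : M →ₐ[Ω] P :=
    { (PowerSeries.C : M →+* PowerSeries M) with
      commutes' := fun r => by
        show PowerSeries.C (algebraMap Ω M r) = algebraMap Ω (PowerSeries M) r
        rw [PowerSeries.algebraMap_apply] }
  have hc : ∀ m : M, c m = PowerSeries.C m := fun m => rfl
  let E' : K →ₐ[Ω] P :=
    { E with
      commutes' := fun r => by
        show E (algebraMap Ω K r) = algebraMap Ω (PowerSeries M) r
        rw [hEC _ (D.map_algebraMap r), AlgHom.commutes, PowerSeries.algebraMap_apply] }
  have hE'' : ∀ b : K, E' b = E b := fun b => rfl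
  refine ⟨M', inferInstance, inferInstance, i.comp c, i.comp E', ?_, ?_⟩
  · intro b hb
    show i (E' b) = i (c (e b))
    rw [hE'', hc, hEC b hb]
  · intro q a b hsum
    have h1 : i (∑ l, c (s (a l)) * E' (b l)) = 0 := by
      rw [map_sum]
      simp only [map_mul]
      exact hsum
    have h2 : ∑ l, c (s (a l)) * E' (b l) = 0 := hi (by rw [h1, map_zero])
    have h3 : ∀ n : ℕ, ∑ l, s (a l) * e (D^[n] (b l)) = 0 := by
      intro n
      have h4 := congrArg (PowerSeries.coeff n) h2
      rw [map_sum, map_zero] at h4
      have h5 : ∀ l, PowerSeries.coeff n (c (s (a l)) * E' (b l)) =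
          s (a l) * e (D^[n] (b l)) / (n.factorial : M) := by
        intro l
        rw [hc, hE'', PowerSeries.coeff_C_mul, hE', mul_div_assoc]
      simp only [h5] at h4
      rw [← Finset.sum_div] at h4
      have h6 : (n.factorial : M) ≠ 0 := by exact_mod_cast n.factorial_ne_zero
      exact (div_eq_zero_iff.mp h4).resolve_right h6
    refine ⟨h3 0, ?_⟩
    have h7 : ∑ l, c (s (a l)) * E' (D (b l)) = 0 := by
      ext n
      rw [map_sum, map_zero]
      have h5 : ∀ l, PowerSeries.coeff n (c (s (a l)) * E' (D (b l))) =
          s (a l) * e (D^[n + 1] (b l)) / (n.factorial : M) := by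
        intro l
        rw [hc, hE'', PowerSeries.coeff_C_mul, hE', mul_div_assoc]
        rfl
      simp only [h5]
      rw [← Finset.sum_div, h3 (n + 1), zero_div]
    have h8 := congrArg i h7
    rw [map_sum, map_zero] at h8
    simp only [map_mul] at h8
    exact h8

end Pool.Agent.Y467.CN
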